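import Pool.Agent.Lib.MP_9bfc50_al.Main

namespace Pool.Agent.Results.MP_9bfc50_al.NonHereditary

open Pool.Agent.Lib.MP_9bfc50_al

/-- A local formation that is not subgroup-closed never has property (L): some finite group has
two subgroups that are subnormal with respect to the formation while their join is not. -/
theorem result (F : GClass) (hF : IsLocalFormation F) (hns : ¬ SubgroupClosed F) :
    ¬ PropertyL F ∧
      ∃ (G : Type) (_ : Group G) (_ : Finite G) (H K : Subgroup G),
        IsFSubnormal F H ∧ IsFSubnormal F K ∧ ¬ IsFSubnormal F (H ⊔ K) := by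
  have hJ : ¬ JoinClosed F := fun h => hns (subgroupClosed_of_joinClosed hF h)
  refine ⟨fun hL => hJ (fun G _ _ H K hH hK => (hL G H K hH hK).2), ?_⟩
  by_contra hcon
  apply hJ
  intro G _ _ H K hH hK
  by_contra h
  exact hcon ⟨G, inferInstance, inferInstance, H, K, hH, hK, h⟩

end Pool.Agent.Results.MP_9bfc50_al.NonHereditary
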